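import Mathlib
import Pool.Agent.MP_dd1803_nt.Defs
import Pool.Agent.ZPB.Top

namespace Pool.Agent.Results.MP_dd1803_nt.AlgebraicRank

open Pool.Agent.MP_dd1803_nt Pool.Agent.ZPA Pool.Agent.ZPB

/-- First part (nothing assumed): every closed subset `V` of every complex torus has only finitely
many maximal atypical subvarieties of algebraic rank at most `1`. Second part: for every `s`, the
algebraic points of rank at most `s'`, `2 ≤ s' ≤ s`, are not dense in irreducible closed sets `W` of
codimension more than `s'` contained in no proper special subvariety, if and only if every closed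
subset `V` of every complex torus has only finitely many maximal atypical subvarieties of algebraic
rank at most `s`. -/
theorem result :
    (∀ (κ : Type) [Fintype κ] (V : Set (κ → ℂˣ)), ZClosed V →
      {X | Maximal (Atypical V) X ∧ ARank 1 X}.Finite) ∧
    ∀ s : ℕ, (∀ s', 2 ≤ s' → s' ≤ s → ∀ (κ : Type) [Fintype κ] (W : Set (κ → ℂˣ)), Irr W →
      (∀ T, Special T → W ⊆ T → T = Set.univ) →
      dm W + (s' : WithBot ℕ∞) < dm (Set.univ : Set (κ → ℂˣ)) →
      ∃ A, ZClosed A ∧ W ∩ LowRank s' ⊆ A ∧ ¬ W ⊆ A) ↔
    ∀ (κ : Type) [Fintype κ] (V : Set (κ → ℂˣ)), ZClosed V →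
      {X | Maximal (Atypical V) X ∧ ARank s X}.Finite :=
  ⟨(main_iff_two 1).mp fun s' h1 h2 => by omega, main_iff_two⟩

end Pool.Agent.Results.MP_dd1803_nt.AlgebraicRank
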