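import Mathlib
import Pool.Agent.MP_dd1803_nt.Defs
import Pool.Agent.Z9.T10
import Pool.Agent.Z9.T12

namespace Pool.Agent.Results.MP_dd1803_nt.CurveBundles

open Pool.Agent.MP_dd1803_nt

/-- The monomial `y ^ n`. -/
noncomputable def mon {m : ℕ} (n : Fin m → ℤ) (y : Fin m → ℂˣ) : ℂ := ∏ i, (y i : ℂ) ^ n i

/-- `Z` is the set of the common zeros in the torus of polynomials with algebraic coefficients. -/
def OverQbar {s : ℕ} (Z : Set (Fin s → ℂˣ)) : Prop :=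
  ∃ S : Set (MvPolynomial (Fin s) ℂ), (∀ p ∈ S, ∀ α, IsAlgebraic ℚ (MvPolynomial.coeff α p)) ∧
    Z = {y | ∀ p ∈ S, MvPolynomial.eval (fun i => (y i : ℂ)) p = 0}

/-- Any two independent real linear relations between the numbers `log |σ (z_i)|` hold together at
finitely many points of `Z` only. -/
def Ind (σ : ℂ ≃+* ℂ) {s : ℕ} (Z : Set (Fin s → ℂˣ)) : Prop :=
  ∀ u v : Fin s → ℝ, LinearIndependent ℝ ![u, v] →
    {z : Fin s → ℂˣ | z ∈ Z ∧ ∑ i, u i * Real.log ‖σ (z i)‖ = 0 ∧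
      ∑ i, v i * Real.log ‖σ (z i)‖ = 0}.Finite

/-- `C` is an irreducible closed curve (complex coefficients) and no monomial `y ^ n`, `n ≠ 0`, is
constant on `C`. -/
structure Curve {m : ℕ} (C : Set (Fin m → ℂˣ)) : Prop where
  irr : Irr C
  dim : dm C = 1
  nonconst : ∀ n : Fin m → ℤ, n ≠ 0 → ∀ z : ℂ, ∃ y ∈ C, mon n y ≠ z

/-- `Z` is the image of the curve `C` under the monomial map with the exponents `b_i`: an
irreducible closed curve which contains the points `(y ^ (b_i))`, `y ∈ C`. -/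
def Image {m s : ℕ} (C : Set (Fin m → ℂˣ)) (b : Fin s → Fin m → ℤ) (Z : Set (Fin s → ℂˣ)) : Prop :=
  Irr Z ∧ dm Z = 1 ∧ ∀ y ∈ C, ∃ z ∈ Z, ∀ i, (z i : ℂ) = mon (b i) y

/-- The base curves: for one field automorphism `σ` of `ℂ` (for example the identity), every image of
`C` under a monomial map with independent exponents into a torus of dimension at least three which
is defined over the algebraic numbers satisfies `Ind σ`. -/
structure Base {m : ℕ} (C : Set (Fin m → ℂˣ)) : Prop extends Curve C where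
  indep : ∃ σ : ℂ ≃+* ℂ, ∀ (s : ℕ) (b : Fin s → Fin m → ℤ) (Z : Set (Fin s → ℂˣ)), 3 ≤ s →
    LinearIndependent ℤ b → Image C b Z → OverQbar Z → Ind σ Z

/-- `y` satisfies exactly one multiplicative relation `y ^ n = 1`, up to multiples. -/
def OneRel {m : ℕ} (y : Fin m → ℂˣ) : Prop :=
  ∃ n : Fin m → ℤ, n ≠ 0 ∧ mon n y = 1 ∧
    ∀ n' : Fin m → ℤ, mon n' y = 1 → ∃ a b : ℤ, a ≠ 0 ∧ a • n' = b • n

/-- `X` is a translate of a subtorus: `p⁻¹ X` is a special subvariety for all `p ∈ X`. -/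
def IsCoset {κ : Type} (X : Set (κ → ℂˣ)) : Prop := ∀ p ∈ X, Special {x : κ → ℂˣ | p * x ∈ X}

/-- The bundle of lines `A(y) x_0 + B(y) x_1 = D(y)` over `C`. -/
def Lines {m : ℕ} (C : Set (Fin m → ℂˣ)) (A B D : MvPolynomial (Fin m) ℂ) :
    Set (Fin 2 ⊕ Fin m → ℂˣ) :=
  {x | (fun i => x (Sum.inr i)) ∈ C ∧
    MvPolynomial.eval (fun i => (x (Sum.inr i) : ℂ)) A * (x (Sum.inl 0) : ℂ) +
      MvPolynomial.eval (fun i => (x (Sum.inr i) : ℂ)) B * (x (Sum.inl 1) : ℂ) =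
        MvPolynomial.eval (fun i => (x (Sum.inr i) : ℂ)) D}

theorem ch_eq {m : ℕ} (n : Fin m → ℤ) (y : Fin m → ℂˣ) : ((ch n y : ℂˣ) : ℂ) = mon n y := by
  unfold ch mon
  rw [Units.coe_prod]
  exact Finset.prod_congr rfl fun i _ => Units.val_zpow_eq_zpow_val _ _

theorem mon_sg {m : ℕ} (σ : ℂ ≃+* ℂ) (n : Fin m → ℤ) (y : Fin m → ℂˣ) :
    mon n (Pool.Agent.Z9.sgp σ y) = σ (mon n y) := by
  unfold mon
  rw [map_prod]
  refine Finset.prod_congr rfl fun i _ => ?_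
  rw [map_zpow₀]
  rfl

theorem Curve.td_eq {m : ℕ} {C : Set (Fin m → ℂˣ)} (h : Curve C) : td ℂ C = 1 := by
  have h1 := h.dim
  rw [dm_irr h.irr] at h1
  exact_mod_cast h1

theorem Curve.pos {m : ℕ} {C : Set (Fin m → ℂˣ)} (h : Curve C) : 0 < m := by
  rcases Nat.eq_zero_or_pos m with rfl | hm
  · exfalso
    obtain ⟨y0, hy0⟩ := h.irr.nonempty
    have h2 : C = {y0} := by
      ext y
      constructor
      · intro _
        exact Subsingleton.elim _ _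
      · intro hy
        rw [Set.mem_singleton_iff] at hy
        rw [hy]
        exact hy0
    have h3 := h.td_eq
    rw [h2, Pool.Agent.ZL2.td_singleton'] at h3
    omega
  · exact hm

theorem Curve.nc {m : ℕ} {C : Set (Fin m → ℂˣ)} (h : Curve C) :
    ∀ v : Fin m → ℤ, v ≠ 0 → ∀ z : ℂˣ, ¬ ∀ y ∈ C, ch v y = z := by
  intro n hn z hz
  obtain ⟨y, hy, hne⟩ := h.nonconst n hn (z : ℂ)
  apply hne
  rw [← ch_eq, hz y hy]

theorem image_iff {m s : ℕ} {C : Set (Fin m → ℂˣ)} (h : Curve C) {b : Fin s → Fin m → ℤ}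
    (hs : 0 < s) (hb : LinearIndependent ℤ b) {Z : Set (Fin s → ℂˣ)} :
    Image C b Z ↔ Z = Pool.Agent.MP_dd1803_nt.cl ℂ (Pool.Agent.ZPA.phi b '' C) := by
  constructor
  · rintro ⟨hZ, hd, hCZ⟩
    refine (Pool.Agent.Z9.eq_image h.irr h.td_eq h.nc hs hb hZ hd fun y hy => ?_).symm
    obtain ⟨z, hz, hzy⟩ := hCZ y hy
    have h1 : (fun i => ch (b i) y) = z := by
      funext i
      apply Units.ext
      rw [ch_eq, hzy i]
    rw [h1]
    exact hz
  · rintro rfl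
    have hI := Pool.Agent.Z9.t1_irr h.irr b
    refine ⟨hI, ?_, fun y hy => ⟨_, subset_cl _ ⟨y, hy, rfl⟩, fun i => ch_eq (b i) y⟩⟩
    rw [dm_irr hI, Pool.Agent.Z9.t1_td h.irr h.td_eq h.nc hs hb]
    rfl

theorem overQbar_iff {s : ℕ} {Z : Set (Fin s → ℂˣ)} :
    OverQbar Z ↔ cl (acl (∅ : Set ℂ)) Z = Z := Pool.Agent.Z9.overQbar_iff

theorem Base.hc {m : ℕ} {C : Set (Fin m → ℂˣ)} (h : Base C) :
    ∃ σ : ℂ ≃+* ℂ, Pool.Agent.Z9.HCx (Pool.Agent.Z9.sg σ C) := by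
  obtain ⟨σ, hσ⟩ := h.indep
  have hc := h.toCurve
  refine ⟨σ, (Pool.Agent.Z9.irr_sg σ).2 h.irr, ?_, Pool.Agent.Z9.sg_nc σ hc.nc, ?_⟩
  · rw [Pool.Agent.Z9.sg_td σ h.irr, hc.td_eq]
  · refine Pool.Agent.Z9.ind_of σ h.irr hc.td_eq hc.nc fun s b hs hb Z hZ hd hZa hCZ => ?_
    exact hσ s b Z hs hb ⟨hZ, hd, fun y hy => ⟨_, hCZ y hy, fun i => ch_eq (b i) y⟩⟩ hZa

/-- In dimension at most two every curve is a base curve. -/
theorem base_two {m : ℕ} {C : Set (Fin m → ℂˣ)} (hm : m ≤ 2) (h : Curve C) : Base C := by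
  refine ⟨h, RingEquiv.refl ℂ, fun s b _ hs hb _ _ => ?_⟩
  exfalso
  have h1 := hb.fintype_card_le_finrank
  rw [Module.finrank_fin_fun, Fintype.card_fin] at h1
  omega

/-- Curves without images over the algebraic numbers in dimension three are base curves. -/
theorem base_no {m : ℕ} {C : Set (Fin m → ℂˣ)} (h : Curve C)
    (h3 : ∀ (b : Fin 3 → Fin m → ℤ) (Z : Set (Fin 3 → ℂˣ)), LinearIndependent ℤ b → Image C b Z →
      ¬ OverQbar Z) : Base C := by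
  refine ⟨h, RingEquiv.refl ℂ, fun s b Z hs hb hZ hZa => ?_⟩
  exfalso
  rw [image_iff h (by omega) hb] at hZ
  rw [hZ, overQbar_iff] at hZa
  obtain ⟨h4, h5⟩ := Pool.Agent.Z9.image_three hs hb hZa
  exact h3 _ _ h4 ((image_iff h (by norm_num) h4).2 rfl) (overQbar_iff.2 h5)

/-- In dimension three the curves which are not defined over the algebraic numbers are base
curves. -/
theorem base_three {C : Set (Fin 3 → ℂˣ)} (h : Curve C) (hC : ¬ OverQbar C) : Base C := by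
  refine base_no h fun b Z hb hZ hZa => ?_
  rw [image_iff h (by norm_num) hb] at hZ
  rw [hZ, overQbar_iff] at hZa
  exact Pool.Agent.Z9.no_image_three h.irr (fun h1 => hC (overQbar_iff.2 h1)) 3 b le_rfl hb hZa

/-- Curves with `Ind σ` for one automorphism `σ` are base curves. -/
theorem base_ind {m : ℕ} {C : Set (Fin m → ℂˣ)} (h : Curve C) {σ : ℂ ≃+* ℂ} (hσ : Ind σ C) :
    Base C := by
  refine ⟨h, σ, fun s b Z hs hb hZ _ => ?_⟩
  rw [image_iff h (by omega) hb] at hZ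
  rw [hZ]
  exact Pool.Agent.Z9.indep_sg σ h.irr h.td_eq h.nc hσ (by omega) hb

theorem oneRel {m : ℕ} {y : Fin m → ℂˣ} (h : rk ({y} : Set (Fin m → ℂˣ)) = 1) : OneRel y := by
  obtain ⟨v, hv0, hv⟩ := finrank_eq_one_iff'.1 h
  obtain ⟨N, hN, h1⟩ := v.2
  have hN0 : (N : ℤ) ≠ 0 := by exact_mod_cast hN.ne'
  refine ⟨(N : ℤ) • (v : Fin m → ℤ), smul_ne_zero hN0 fun h2 => hv0 (Subtype.ext h2), ?_, ?_⟩
  · rw [← ch_eq, ch_zsmul, zpow_natCast, h1 y rfl, Units.val_one]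
  · intro n' hn'
    have h2 : n' ∈ Lam ({y} : Set (Fin m → ℂˣ)) := by
      refine ⟨1, one_pos, ?_⟩
      intro x hx
      rw [Set.mem_singleton_iff] at hx
      rw [hx, pow_one]
      apply Units.ext
      rw [ch_eq, hn', Units.val_one]
    obtain ⟨b, hb⟩ := hv ⟨n', h2⟩
    have hb' : b • (v : Fin m → ℤ) = n' := congrArg Subtype.val hb
    refine ⟨(N : ℤ), b, hN0, ?_⟩
    rw [← hb', smul_comm]

theorem oneRel_sg {m : ℕ} (σ : ℂ ≃+* ℂ) {y : Fin m → ℂˣ}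
    (h : OneRel (Pool.Agent.Z9.sgp σ y)) : OneRel y := by
  obtain ⟨n, hn, h1, h2⟩ := h
  refine ⟨n, hn, ?_, fun n' hn' => h2 n' ?_⟩
  · rw [mon_sg] at h1
    exact (EquivLike.injective σ) (by rw [h1, map_one])
  · rw [mon_sg, hn', map_one]

/-- The line of the points `(c_i (t - d_i))` in the torus of dimension three. -/
def Line3 (c d : Fin 3 → ℂ) : Set (Fin 3 → ℂˣ) := {y | ∃ t : ℂ, ∀ i, (y i : ℂ) = c i * (t - d i)}

theorem curve_line {c d : Fin 3 → ℂ} (hc : ∀ i, c i ≠ 0) (hd : Function.Injective d) :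
    Curve (Line3 c d) := by
  have hI : Irr (Pool.Agent.Z9.Line c d) := by
    refine ⟨⟨Set.range fun i : Fin 3 => (MvPolynomial.C (c 0) * MvPolynomial.X i -
      MvPolynomial.C (c i) * MvPolynomial.X 0 - MvPolynomial.C (c 0 * c i * (d 0 - d i)) :
        MvPolynomial (Fin 3) ℂ), ?_⟩, Pool.Agent.Z9.k9ex_irr (by norm_num) hc⟩
    ext y
    have h1 := Pool.Agent.Z9.k9ex_iff (d := d) hc (0 : Fin 3) y
    rw [h1, Set.mem_ofPred_eq, Set.forall_mem_range]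
    refine forall_congr' fun i => ?_
    simp
  refine ⟨hI, ?_, ?_⟩
  · have h1 := dm_irr hI
    rw [Pool.Agent.Z9.k9ex_td (by norm_num) hc hI] at h1
    exact h1
  · intro n hn z
    by_contra hcon
    push Not at hcon
    obtain ⟨y0, hy0⟩ := hI.nonempty
    refine Pool.Agent.Z9.k9ex_nc hc hd n hn (ch n y0) fun y hy => ?_
    apply Units.ext
    rw [ch_eq, ch_eq, hcon y hy, hcon y0 hy0]

/-- If `d_j` and `d_k` are inverse in the circle `|y_i| = 1` and the constants match, then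
`|y_j| = |y_k|` on this circle. -/
theorem circle_eq {ci cj ck di dj dk t : ℂ} (h1 : (‖ci‖ : ℂ) ^ 2 * ((dj - di) * (starRingEnd ℂ) (dk - di)) = 1)
    (h2 : ‖ci‖ * ‖cj‖ * ‖dj - di‖ = ‖ck‖) (ht : ‖ci * (t - di)‖ = 1) :
    ‖cj * (t - dj)‖ = ‖ck * (t - dk)‖ := by
  obtain ⟨w, hw⟩ : ∃ w, w = t - di := ⟨_, rfl⟩
  obtain ⟨p, hp⟩ : ∃ p, p = dj - di := ⟨_, rfl⟩
  obtain ⟨q, hq⟩ : ∃ q, q = dk - di := ⟨_, rfl⟩
  have e1 : t - dj = w - p := by rw [hw, hp]; ring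
  have e2 : t - dk = w - q := by rw [hw, hq]; ring
  rw [← hw, norm_mul] at ht
  rw [← hp, ← hq] at h1
  rw [← hp] at h2
  rw [e1, e2, norm_mul, norm_mul, ← h2]
  have hci : (‖ci‖ : ℂ) ≠ 0 := by
    intro h
    rw [h] at h1
    norm_num at h1
  have h3 : (‖ci‖ : ℂ) ^ 2 * ((starRingEnd ℂ) p * q) = 1 := by
    have h4 := congrArg (starRingEnd ℂ) h1
    rw [map_mul, map_mul, map_pow, Complex.conj_ofReal, Complex.conj_conj, map_one] at h4
    exact h4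
  have h4 : (‖ci‖ : ℂ) ^ 2 * (w * (starRingEnd ℂ) w) = 1 := by
    rw [Complex.mul_conj, Complex.normSq_eq_norm_sq, ← Complex.ofReal_pow, ← Complex.ofReal_mul,
      ← mul_pow, ht, one_pow, Complex.ofReal_one]
  have h5 : (starRingEnd ℂ) p * (w - q) = w * (starRingEnd ℂ) (p - w) := by
    apply mul_left_cancel₀ (pow_ne_zero 2 hci)
    rw [map_sub]
    linear_combination h4 - h3
  have h6 := congrArg norm h5
  rw [norm_mul, norm_mul, RCLike.norm_conj, RCLike.norm_conj, norm_sub_rev p w] at h6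
  have h7 : ‖ci‖ * ‖cj‖ * ‖p‖ * ‖w - q‖ = ‖ci‖ * ‖cj‖ * (‖w‖ * ‖w - p‖) := by
    rw [← h6]
    ring
  rw [h7]
  calc ‖cj‖ * ‖w - p‖ = (‖ci‖ * ‖w‖) * (‖cj‖ * ‖w - p‖) := by rw [ht, one_mul]
    _ = ‖ci‖ * ‖cj‖ * (‖w‖ * ‖w - p‖) := by ring

theorem ind_line {c d : Fin 3 → ℂ} (hc : ∀ i, c i ≠ 0) (hd : Function.Injective d)
    (hns : ∀ i j k : Fin 3, i ≠ j → j ≠ k → k ≠ i →
      ∃ t : ℂ, ‖c i * (t - d i)‖ = 1 ∧ ‖c j * (t - d j)‖ ≠ ‖c k * (t - d k)‖) :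
    Ind (RingEquiv.refl ℂ) (Line3 c d) := by
  have hH : Pool.Agent.Z5.HH c d := Pool.Agent.Z5.HH_of hc hd (by
    rintro i j k h1 h2 h3 ⟨h4, h5⟩
    obtain ⟨t, ht, hne⟩ := hns i j k h1 h2 (Ne.symm h3)
    push_cast at h4
    exact hne (circle_eq h4 h5 ht))
  have hH6 := Pool.Agent.Z9.hh_three hH
  intro u v huv
  refine ((hH6 u v huv).image (Pool.Agent.Z9.k9ex_pt c d)).subset ?_
  rintro y ⟨⟨t, ht⟩, h1, h2⟩
  obtain ⟨h3, h4⟩ := Pool.Agent.Z9.k9ex_eq ht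
  have h5 : ∀ i, ‖(RingEquiv.refl ℂ) (y i : ℂ)‖ = ‖c i * (t - d i)‖ := fun i => by
    rw [← ht i]
    rfl
  simp only [h5] at h1 h2
  exact ⟨t, ⟨h3, h1, h2⟩, h4.symm⟩

/-- MAIN RESULT. Let `C` be a base curve in the torus of dimension `m`. For every `k` and every
irreducible closed `V` of dimension `k` in the product of the torus of dimension `k` and `C`
(complex coefficients): the Zilber-Pink statement in Pink's form; and all but finitely many maximal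
atypical subvarieties of `V` are translates of subtori lying in the fibres over finitely many points
of `C` with exactly one multiplicative relation. Second part: for the bundles of lines there are no
exceptional fibres. Third part: criteria for base curves. -/
theorem result :
    (∀ (k m : ℕ) (C : Set (Fin m → ℂˣ)), Base C →
      ∀ V : Set (Fin k ⊕ Fin m → ℂˣ), Irr V → dm V = k → (∀ x ∈ V, (fun i => x (Sum.inr i)) ∈ C) →
        ((∀ T, Special T → V ⊆ T → T = Set.univ) →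
          ∃ Z, ZClosed Z ∧ Z ⊆ V ∧ Z ≠ V ∧ (∀ X, Atypical V X → X ⊆ Z) ∧
            ∀ T, Special T → dm T < m → V ∩ T ⊆ Z) ∧
        ∃ F : Set (Fin m → ℂˣ), F.Finite ∧ (∀ y ∈ F, y ∈ C ∧ OneRel y) ∧
          {X | Maximal (Atypical V) X ∧
            ¬ (IsCoset X ∧ ∃ y0 ∈ F, ∀ x ∈ X, ∀ i, x (Sum.inr i) = y0 i)}.Finite) ∧
    (∀ (m : ℕ) (C : Set (Fin m → ℂˣ)) (A B D : MvPolynomial (Fin m) ℂ), Base C →
      (∃ y ∈ C, MvPolynomial.eval (fun i => (y i : ℂ)) A ≠ 0) →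
      (∃ y ∈ C, MvPolynomial.eval (fun i => (y i : ℂ)) B ≠ 0) →
      (∃ y ∈ C, MvPolynomial.eval (fun i => (y i : ℂ)) D ≠ 0) →
      (∀ y ∈ C, ¬ (MvPolynomial.eval (fun i => (y i : ℂ)) A = 0 ∧
        MvPolynomial.eval (fun i => (y i : ℂ)) B = 0 ∧
        MvPolynomial.eval (fun i => (y i : ℂ)) D = 0)) →
      dm (Lines C A B D) = 2 ∧ {X | Maximal (Atypical (Lines C A B D)) X}.Finite) ∧
    (∀ (m : ℕ) (C : Set (Fin m → ℂˣ)), Curve C →
      (m ≤ 2 ∨ (m = 3 ∧ ¬ OverQbar C) ∨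
        (∀ (b : Fin 3 → Fin m → ℤ) (Z : Set (Fin 3 → ℂˣ)), LinearIndependent ℤ b → Image C b Z →
          ¬ OverQbar Z) ∨ ∃ σ : ℂ ≃+* ℂ, Ind σ C) → Base C) ∧
    (∀ c d : Fin 3 → ℂ, (∀ i, c i ≠ 0) → Function.Injective d →
      (∀ i j k : Fin 3, i ≠ j → j ≠ k → k ≠ i →
        ∃ t : ℂ, ‖c i * (t - d i)‖ = 1 ∧ ‖c j * (t - d j)‖ ≠ ‖c k * (t - d k)‖) →
      Base (Line3 c d)) := by
  refine ⟨?_, ?_, ?_, ?_⟩
  · intro k m C hC V hV hdm hVC
    obtain ⟨σ, h⟩ := hC.hc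
    obtain ⟨F, hFf, hF1, hfin⟩ := Pool.Agent.Z9.fin_conjx σ h hC.toCurve.pos hV hdm hVC
    exact ⟨Pool.Agent.Z9.pink_conjx σ h hC.toCurve.pos hV hdm hVC,
      F, hFf, fun y hy => ⟨(hF1 y hy).1, oneRel_sg σ (oneRel (hF1 y hy).2)⟩, hfin⟩
  · intro m C A B D hC hA hB hD hcop
    obtain ⟨σ, h⟩ := hC.hc
    exact Pool.Agent.Z9.lines_conjx σ h hC.toCurve.pos hA hB hD hcop
  · rintro m C hC (hm | ⟨rfl, hQ⟩ | h3 | ⟨σ, hσ⟩)
    · exact base_two hm hC
    · exact base_three hC hQ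
    · exact base_no hC h3
    · exact base_ind hC hσ
  · intro c d hc hd hns
    exact base_ind (curve_line hc hd) (ind_line hc hd hns)

end Pool.Agent.Results.MP_dd1803_nt.CurveBundles
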