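import Mathlib
import Pool.Agent.MP_dd1803_nt.Defs
import Pool.Agent.ZL2.Geom4

namespace Pool.Agent.Results.MP_dd1803_nt.LineProducts

open Pool.Agent.MP_dd1803_nt

/-- The product of the `k` lines `a_i x_i + b_i y_i = 1` in the complex torus of dimension `2k`. -/
def Lines {k : ℕ} (a b : Fin k → ℂ) : Set (Fin k ⊕ Fin k → ℂˣ) :=
  {x | ∀ i, a i * (x (Sum.inl i) : ℂ) + b i * (x (Sum.inr i) : ℂ) = 1}

/-- Let `V` be any product of `k` lines over the complex numbers. The intersections of `V` with the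
special subvarieties of dimension at most `2` all lie in one closed subset `Z` of `V` with
`dim Z ≤ 2`. If `k = 3`, then `Z` contains all atypical subvarieties of `V`, and only finitely many
of the maximal ones have positive dimension. -/
theorem result (k : ℕ) (a b : Fin k → ℂ) (ha : ∀ i, a i ≠ 0) (hb : ∀ i, b i ≠ 0) :
    dm (Lines a b) = (k : WithBot ℕ∞) ∧
    ∃ Z : Set (Fin k ⊕ Fin k → ℂˣ), ZClosed Z ∧ Z ⊆ Lines a b ∧ dm Z ≤ 2 ∧
      (∀ T, Special T → dm T ≤ 2 → Lines a b ∩ T ⊆ Z) ∧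
      (k = 3 → (∀ X, Atypical (Lines a b) X → X ⊆ Z) ∧
        {X | Maximal (Atypical (Lines a b)) X ∧ dm X ≠ 0}.Finite) :=
  Pool.Agent.ZL2.main_all k a b ha hb

end Pool.Agent.Results.MP_dd1803_nt.LineProducts
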