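import Mathlib
import Pool.Agent.MP_dd1803_nt.Y.YDefs
import Pool.Agent.MP_dd1803_nt.Y.Main

namespace Pool.Agent.Results.MP_dd1803_nt.PlanePowers

open Pool.Agent.MP_dd1803_nt

/-- The Zilber-Pink property holds for all closed subsets of all powers of the modular curve
`Y(1)` if and only if it holds for all powers of the plane `x + y = z` in `Y(1)^3`. -/
theorem result : (∀ k : ℕ, YZP (YPlane k)) ↔
    ∀ (κ : Type) [Finite κ] (V : Set (κ → ℂ)), Aff.ZClosed V → YZP V :=
  yzp_iff_plane

end Pool.Agent.Results.MP_dd1803_nt.PlanePowers
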